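import Mathlib
import Pool.Agent.MDG.Stmts

set_option autoImplicit false

open Finset Pool.Agent.HEC

namespace Pool.Agent.MDG.H95

theorem even_invol {α : Type} [DecidableEq α] (Q : Finset α) (τ : α → α)
    (h1 : ∀ a ∈ Q, τ a ∈ Q) (h2 : ∀ a ∈ Q, τ (τ a) = a) (h3 : ∀ a ∈ Q, τ a ≠ a) :
    Even Q.card := by
  have h : ∑ a ∈ Q, (1 : ZMod 2) = 0 := by
    apply Finset.sum_involution (fun a _ => τ a)
    · intro a _
      decide
    · intro a ha _
      exact h3 a ha
    · intro a ha
      exact h1 a ha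
    · intro a ha
      exact h2 a ha
  rw [Finset.sum_const, nsmul_one] at h
  exact (ZMod.natCast_eq_zero_iff_even).1 h

theorem cnt_eq {α : Type} [Fintype α] (p : α → Prop) (P : Finset α) (h : ∀ a, a ∈ P ↔ p a) :
    cnt p = P.card := by
  rw [cnt]
  apply congrArg Finset.card
  ext a
  simp [h]

section

variable {N E : Type} (s t : E → N) (g : N → ℕ)

/-- the port `(x, e)` -/
def prt (x : N) (e : E) (h : s e = x ∨ t e = x) : Prt s t g := Sum.inl ⟨(x, e), h⟩

/-- the dummy `(x, j)` -/
def dmy (x : N) (j : Fin (g x)) : Prt s t g := Sum.inr ⟨x, j⟩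

/-- the node -/
def nod : Prt s t g → N
  | Sum.inl a => a.1.1
  | Sum.inr c => c.1

/-- is it a port -/
def isP : Prt s t g → Bool
  | Sum.inl _ => true
  | Sum.inr _ => false

theorem cs (q : Prt s t g) : (∃ x e h, q = prt s t g x e h) ∨ ∃ x j, q = dmy s t g x j := by
  rcases q with ⟨⟨x, e⟩, h⟩ | ⟨x, j⟩
  · exact Or.inl ⟨x, e, h, rfl⟩
  · exact Or.inr ⟨x, j, rfl⟩

theorem nod_prt (x : N) (e : E) (h : s e = x ∨ t e = x) : nod s t g (prt s t g x e h) = x := rfl

theorem nod_dmy (x : N) (j : Fin (g x)) : nod s t g (dmy s t g x j) = x := rfl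

theorem isP_prt (x : N) (e : E) (h : s e = x ∨ t e = x) : isP s t g (prt s t g x e h) = true := rfl

theorem isP_dmy (x : N) (j : Fin (g x)) : isP s t g (dmy s t g x j) = false := rfl

theorem prt_inj (x : N) (e e' : E) (h : s e = x ∨ t e = x) (h' : s e' = x ∨ t e' = x)
    (heq : prt s t g x e h = prt s t g x e' h') : e = e' := by
  have h1 := Sum.inl.inj heq
  have h2 := congrArg Subtype.val h1
  exact congrArg Prod.snd h2

theorem dmy_inj (x : N) (j j' : Fin (g x)) (heq : dmy s t g x j = dmy s t g x j') : j = j' := by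
  have h1 := Sum.inr.inj heq
  exact eq_of_heq (Sigma.mk.inj h1).2

theorem adj_pp (x y : N) (e f : E) (h : s e = x ∨ t e = x) (h' : s f = y ∨ t f = y)
    (ha : (gdg s t g).Adj (prt s t g x e h) (prt s t g y f h')) :
    (x = y ∧ e ≠ f) ∨ (x ≠ y ∧ e = f) := ha

theorem adj_pd (x y : N) (e : E) (h : s e = x ∨ t e = x) (j : Fin (g y))
    (ha : (gdg s t g).Adj (prt s t g x e h) (dmy s t g y j)) : x = y := ha

theorem adj_dp (x y : N) (e : E) (h : s e = x ∨ t e = x) (j : Fin (g y))
    (ha : (gdg s t g).Adj (dmy s t g y j) (prt s t g x e h)) : x = y := ha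

theorem adj_dd (x y : N) (i : Fin (g x)) (j : Fin (g y))
    (ha : (gdg s t g).Adj (dmy s t g x i) (dmy s t g y j)) : False := ha

end

theorem esj : EsjStmt := by
  classical
  intro N E _ _ s t g hst hg hMex
  obtain ⟨M, hM⟩ := hMex
  rw [SimpleGraph.Subgraph.isPerfectMatching_iff] at hM
  choose τ hτ huniq using hM
  have hinv : ∀ a, τ (τ a) = a := fun a => (huniq (τ a) a (hτ a).symm).symm
  have hadj : ∀ a, (gdg s t g).Adj a (τ a) := fun a => (hτ a).adj_sub
  have hne : ∀ a, τ a ≠ a := fun a h => (gdg s t g).ne_of_adj (hadj a) h.symm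
  obtain ⟨J, hJ⟩ : ∃ J : E → Prop, ∀ e, J e ↔
      τ (prt s t g (s e) e (Or.inl rfl)) ≠ prt s t g (t e) e (Or.inr rfl) :=
    ⟨_, fun e => Iff.rfl⟩
  -- neighbours of a port with another node
  have hport : ∀ (x : N) (e : E) (h : s e = x ∨ t e = x),
      nod s t g (τ (prt s t g x e h)) ≠ x →
      ∃ (y : N) (h' : s e = y ∨ t e = y), y ≠ x ∧ τ (prt s t g x e h) = prt s t g y e h' := by
    intro x e h hx
    have h1 := hadj (prt s t g x e h)
    rcases cs s t g (τ (prt s t g x e h)) with ⟨y, f, h', h2⟩ | ⟨y, j, h2⟩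
    · rw [h2] at h1 hx
      rw [nod_prt] at hx
      rcases adj_pp s t g x y e f h h' h1 with h3 | h3
      · exact absurd h3.1.symm hx
      · obtain ⟨h4, h5⟩ := h3
        subst h5
        exact ⟨y, h', fun h => h4 h.symm, h2⟩
    · rw [h2] at h1 hx
      rw [nod_dmy] at hx
      exact absurd (adj_pd s t g x y e h j h1).symm hx
  have hkey : ∀ (x : N) (e : E) (h : s e = x ∨ t e = x),
      J e ↔ nod s t g (τ (prt s t g x e h)) = x := by
    intro x e h
    rw [hJ]
    constructor
    · intro h1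
      by_contra hx
      obtain ⟨y, h', hyx, h2⟩ := hport x e h hx
      apply h1
      rcases h with h | h
      · subst h
        have h3 : t e = y := h'.resolve_left (fun h => hyx h.symm)
        subst h3
        exact h2
      · subst h
        have h3 : s e = y := h'.resolve_right (fun h => hyx h.symm)
        subst h3
        rw [← h2, hinv]
    · intro h1 h2
      have h3 := hinv (prt s t g (s e) e (Or.inl rfl))
      rw [h2] at h3
      rcases h with h | h
      · subst h
        rw [h2, nod_prt] at h1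
        exact hst e h1.symm
      · subst h
        rw [h3, nod_prt] at h1
        exact hst e h1
  refine ⟨J, fun x => ?_⟩
  obtain ⟨P, hP⟩ : ∃ P : Finset E, P = univ.filter (fun e => J e ∧ (s e = x ∨ t e = x)) := ⟨_, rfl⟩
  have hPm : ∀ e, e ∈ P ↔ J e ∧ (s e = x ∨ t e = x) := by
    intro e
    rw [hP, Finset.mem_filter]
    exact ⟨fun h => h.2, fun h => ⟨Finset.mem_univ _, h⟩⟩
  have hmdg : mdg s t J x = P.card := cnt_eq _ P hPm
  obtain ⟨Q, hQ⟩ : ∃ Q : Finset (Prt s t g),
      Q = univ.filter (fun q => nod s t g q = x ∧ nod s t g (τ q) = x) := ⟨_, rfl⟩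
  have hQm : ∀ q, q ∈ Q ↔ nod s t g q = x ∧ nod s t g (τ q) = x := by
    intro q
    rw [hQ, Finset.mem_filter]
    exact ⟨fun h => h.2, fun h => ⟨Finset.mem_univ _, h⟩⟩
  have hQτ : ∀ q ∈ Q, τ q ∈ Q := by
    intro q hq
    rw [hQm] at hq ⊢
    rw [hinv]
    exact ⟨hq.2, hq.1⟩
  have hQe : Even Q.card := even_invol Q τ hQτ (fun a _ => hinv a) (fun a _ => hne a)
  have hsplit : (Q.filter (fun q => isP s t g q = true)).card +
      (Q.filter (fun q => ¬ isP s t g q = true)).card = Q.card :=
    Finset.card_filter_add_card_filter_not _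
  have hc1 : P.card = (Q.filter (fun q => isP s t g q = true)).card := by
    apply Finset.card_bij (fun e he => prt s t g x e ((hPm e).1 he).2)
    · intro e he
      rw [Finset.mem_filter, hQm]
      exact ⟨⟨nod_prt _ _ _ _ _ _, (hkey x e ((hPm e).1 he).2).1 ((hPm e).1 he).1⟩,
        isP_prt _ _ _ _ _ _⟩
    · intro e he e' he' h
      exact prt_inj s t g x e e' _ _ h
    · intro q hq
      rw [Finset.mem_filter, hQm] at hq
      rcases cs s t g q with ⟨x', e, h, h2⟩ | ⟨x', j, h2⟩
      · subst h2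
        have h1 := hq.1.1
        rw [nod_prt] at h1
        subst h1
        exact ⟨e, (hPm e).2 ⟨(hkey x' e h).2 hq.1.2, h⟩, rfl⟩
      · subst h2
        rw [isP_dmy] at hq
        exact absurd hq.2 (by simp)
  have hdum : ∀ (y : N) (j : Fin (g y)), ∃ (e : E) (h : s e = y ∨ t e = y),
      τ (dmy s t g y j) = prt s t g y e h := by
    intro y j
    have h1 := hadj (dmy s t g y j)
    rcases cs s t g (τ (dmy s t g y j)) with ⟨x', e, h, h2⟩ | ⟨x', i, h2⟩
    · rw [h2] at h1
      have h3 := adj_dp s t g x' y e h j h1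
      subst h3
      exact ⟨e, h, h2⟩
    · rw [h2] at h1
      exact (adj_dd s t g _ _ _ _ h1).elim
  have hc2 : g x = (Q.filter (fun q => ¬ isP s t g q = true)).card := by
    have h0 : (Finset.univ : Finset (Fin (g x))).card =
        (Q.filter (fun q => ¬ isP s t g q = true)).card := by
      apply Finset.card_bij (fun j _ => dmy s t g x j)
      · intro j _
        rw [Finset.mem_filter, hQm]
        obtain ⟨e, h, h2⟩ := hdum x j
        refine ⟨⟨nod_dmy _ _ _ _ _, ?_⟩, ?_⟩
        · rw [h2, nod_prt]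
        · rw [isP_dmy]
          simp
      · intro j _ j' _ h
        exact dmy_inj s t g x j j' h
      · intro q hq
        rw [Finset.mem_filter, hQm] at hq
        rcases cs s t g q with ⟨x', e, h, h2⟩ | ⟨x', j, h2⟩
        · subst h2
          exact absurd (isP_prt _ _ _ _ _ _) hq.2
        · subst h2
          have h1 := hq.1.1
          rw [nod_dmy] at h1
          subst h1
          exact ⟨j, Finset.mem_univ _, rfl⟩
    rw [← h0, Finset.card_fin]
  rw [hmdg]
  constructor
  · rw [← hsplit, ← hc1, ← hc2, Nat.even_add] at hQe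
    exact hQe.2 (hg x)
  · rw [hc1]
    conv_lhs => rw [hc2]
    apply Finset.card_le_card_of_injOn τ
    · intro q hq
      have hq' := Finset.mem_filter.1 (Finset.mem_coe.1 hq)
      apply Finset.mem_coe.2
      refine Finset.mem_filter.2 ⟨hQτ q hq'.1, ?_⟩
      rcases cs s t g q with ⟨x', e, h, h2⟩ | ⟨x', j, h2⟩
      · subst h2
        exact absurd (isP_prt _ _ _ _ _ _) hq'.2
      · subst h2
        obtain ⟨e, h, h3⟩ := hdum x' j
        rw [h3, isP_prt]
    · intro a _ b _ h
      rw [← hinv a, h, hinv b]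

end Pool.Agent.MDG.H95
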