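import Mathlib
import Pool.Agent.MDG.StmtsZ

set_option autoImplicit false

open Finset Pool.Agent.HEC

namespace Pool.Agent.MDG.H95

theorem cnt_sum {α : Type} [Fintype α] (p : α → Prop) [DecidablePred p] :
    (cnt p : ℝ) = ∑ a, if p a then (1 : ℝ) else 0 := by
  rw [cnt, Finset.sum_boole]
  congr 2
  ext a
  simp

theorem xcs (hBRN : BrnStmt) : XcsStmt := by
  classical
  intro V _ H t p xc ht hx hp hb
  have h1 := hBRN V H t ht
  have h1R : (cnt (fun q : V × V => Bri H q.1 q.2) : ℝ) ≤ 2 * (Fintype.card V : ℝ) := by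
    exact_mod_cast h1
  have h2 : 2 * ∑ u, ∑ v, |xc u v| = ∑ q : V × V, 2 * |xc q.1 q.2| := by
    rw [Fintype.sum_prod_type, Finset.mul_sum]
    refine Finset.sum_congr rfl fun u _ => ?_
    rw [Finset.mul_sum]
  have h3 : ∑ q : V × V, 2 * |xc q.1 q.2| ≤
      ∑ q : V × V, ((if H.Adj q.1 q.2 ∧ p q.1 ≠ p q.2 then (1 : ℝ) else 0) +
        (if Bri H q.1 q.2 then (1 : ℝ) else 0)) := by
    refine Finset.sum_le_sum fun q _ => ?_
    have h4 : |xc q.1 q.2| ≤ 1 := hx.rng _ _
    by_cases hbr : Bri H q.1 q.2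
    · rw [if_pos hbr]
      by_cases hpp : p q.1 = p q.2
      · rw [hp _ _ hpp, abs_zero, mul_zero]
        positivity
      · rw [if_pos ⟨hbr.1, hpp⟩]
        linarith
    · rw [if_neg hbr]
      by_cases hpp : p q.1 = p q.2
      · rw [hp _ _ hpp, abs_zero, mul_zero]
        positivity
      · by_cases ha : H.Adj q.1 q.2
        · rw [if_pos ⟨ha, hpp⟩]
          have := hb _ _ hbr
          linarith
        · rw [hx.supp _ _ ha, abs_zero, mul_zero]
          positivity
  rw [Finset.sum_add_distrib, ← cnt_sum, ← cnt_sum] at h3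
  rw [h2]
  linarith

end Pool.Agent.MDG.H95
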